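import Pool.Agent.H82.Zg.Card

/-!
# Left and right Ziegler spectra of different cardinalities: all fields, all cardinals

The ring consists of operators on the functions from the set of sequences of elements of an infinite
set `X` to a field `K`: the sums of operators `φ ↦ (x ↦ ∑ t_i(x) φ(w_i|n, x_n, x_(n+1), …))`, where
the `t_i` depend only on the first `n` terms. For `X` countable and `K` the field with two elements
it is the ring of the library; the proofs of regularity and of the two bounds are generalised to all
fields and all infinite sets `X`.
-/

set_option autoImplicit false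

open MulOpposite Cardinal

namespace Pool.Agent.Results.MP_cfafa5_al.AllFieldsAllCardinals

open Pool.Agent.H82.Zg

/-- For every field `K` and every infinite set `X` with at least as many elements as `K` there is a
von Neumann regular `K`-algebra `R` with `2 ^ #X` elements whose left Ziegler spectrum has at most
`2 ^ #X` points (it injects into the power set of `X`), while its right Ziegler spectrum has exactly
`2 ^ (2 ^ #X)` points (it is in bijection with the set of all sets of subsets of `X`). So there is no
injective map from the right spectrum to the left one, and the two are not homeomorphic. -/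
theorem result : ∀ (K : Type) [Field K] (X : Type) [Infinite X], #K ≤ #X →
    ∃ (R : Type) (_ : Ring R) (_ : Algebra K R),
      (∀ a : R, ∃ x : R, a * x * a = a) ∧ #R = 2 ^ #X ∧
      (∃ Ψ : LeftZg R → Set X, Function.Injective Ψ) ∧
      Nonempty (RightZg R ≃ Set (Set X)) ∧
      (∀ h : RightZg R → LeftZg R, ¬ Function.Injective h) ∧
      ¬ ∃ h : RightZg R → LeftZg R, Function.Bijective h ∧ Continuous h ∧ IsOpenMap h := by
  intro K _ X _ hK
  obtain ⟨x0⟩ : Nonempty X := inferInstance
  letI : Zero X := ⟨x0⟩
  have h1 := left_small (K := K) (X := X) hK
  have h2 := right_exact (K := K) (X := X) hK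
  have h3 : ∀ h : RightZg (B K X) → LeftZg (B K X), ¬ Function.Injective h := by
    intro h hh
    obtain ⟨Ψ, hΨ⟩ := h1
    obtain ⟨e⟩ := h2
    exact Function.cantor_injective (fun s => Ψ (h (e.symm s)))
      (hΨ.comp (hh.comp e.symm.injective))
  exact ⟨B K X, inferInstance, algB, B_regular, card_B_eq hK, h1, h2, h3,
    fun ⟨h, hb, _⟩ => h3 h hb.1⟩

end Pool.Agent.Results.MP_cfafa5_al.AllFieldsAllCardinals
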